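import Pool.Agent.H.MP_694475_co.AD.Digits

set_option autoImplicit false

namespace Pool.Agent.H.AD694

open Finset

/-- The signed sum of `f + φ`. -/
def S {U : Type} [AddCommGroup U] [Module (ZMod 2) U] [Fintype U] (f : U → ZMod 2)
    (φ : U →ₗ[ZMod 2] ZMod 2) : ℤ := ∑ x, sgn (f x + φ x)

/-- `f (x + h) + f x` is an affine function of `x` for every `h` in `K`. -/
def AffOn {U : Type} [AddCommGroup U] [Module (ZMod 2) U] (f : U → ZMod 2)
    (K : Submodule (ZMod 2) U) : Prop :=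
  ∀ h ∈ K, ∃ (c : ZMod 2) (β : U →ₗ[ZMod 2] ZMod 2), ∀ x, f (x + h) + f x = c + β x

end Pool.Agent.H.AD694
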