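import Pool.Agent.H.MP_694475_co.AD.Odd

set_option autoImplicit false

namespace Pool.Agent.H.AD694

open Finset

/-- For odd `n` with `(8j+2)^2 < 2^n` some Walsh value has absolute value at least `8j+8`. -/
theorem walsh_lower {n : ℕ} (hn : Odd n) (hn5 : 5 ≤ n) (j : ℕ) (hj : (8 * j + 2) ^ 2 < 2 ^ n)
    (F : V n → ℤ) (hF : ∀ x, F x = 1 ∨ F x = -1) : ∃ a, 8 * (j:ℤ) + 8 ≤ |W F a| := by
  by_contra hcon
  have hlt : ∀ a, |W F a| < 8 * (j:ℤ) + 8 := fun a => not_le.1 fun h => hcon ⟨a, h⟩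
  have h28 : (8 * (j:ℤ) + 2) ^ 2 + 28 ≤ 2 ^ n := by
    have hp : (2:ℕ) ^ n = 32 * 2 ^ (n - 5) := by
      rw [show (32:ℕ) = 2 ^ 5 by norm_num, ← pow_add]; congr 1; omega
    have hq : (8 * j + 2) ^ 2 = 64 * (j * j) + 32 * j + 4 := by ring
    have h1 : (8 * j + 2) ^ 2 + 28 ≤ 2 ^ n := by
      rw [hp, hq] at hj ⊢
      generalize j * j = q at hj ⊢
      generalize 2 ^ (n - 5) = p at hj ⊢
      omega
    exact_mod_cast h1
  have h0 : ∀ a, W F a % 2 = 0 := fun a => Int.emod_eq_zero_of_dvd (par0 (by omega) F hF a)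
  have h1 : ∀ a, (W F 0 + W F a) % 4 = 0 := by
    intro a
    have := par1 (by omega) F hF 0 a
    rw [zero_add] at this
    exact Int.emod_eq_zero_of_dvd this
  by_cases hc : W F 0 % 4 = 2
  · apply caseO hn hn5 j h28 F hF
    · intro a
      have e1 := hlt a
      have e2 := h0 a
      rw [abs_lt] at e1
      rw [abs_le]
      constructor <;> omega
    · intro a
      have := h1 a
      omega
  · have hall : ∀ a, W F a % 4 = 0 := by
      intro a
      have e1 := h1 a
      have e2 := h0 0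
      omega
    have := caseA hn hn5 F hF (8 * j + 4) (by
      intro a
      have e1 := hlt a
      have e2 := hall a
      rw [abs_lt] at e1
      rw [abs_le]
      constructor <;> omega) (by omega) hall
    nlinarith

/-- The integer part of `sqrt 2 * 2 ^ m`. -/
def cc (m : ℕ) : ℕ := Nat.sqrt (2 ^ (2 * m + 1))

lemma cc_le (m : ℕ) : cc m ^ 2 ≤ 2 ^ (2 * m + 1) := Nat.sqrt_le' _

lemma lt_cc (m : ℕ) : 2 ^ (2 * m + 1) < (cc m + 1) ^ 2 := Nat.lt_succ_sqrt' _

lemma cc_lt (m : ℕ) : cc m ^ 2 < 2 ^ (2 * m + 1) := by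
  apply lt_of_le_of_ne (cc_le m)
  intro h
  have hS0 : cc m ≠ 0 := by
    intro h0
    rw [h0] at h
    have : 0 < 2 ^ (2 * m + 1) := by positivity
    omega
  have h2 : (cc m ^ 2).factorization 2 = (2 ^ (2 * m + 1)).factorization 2 := by rw [h]
  rw [Nat.factorization_pow, Nat.Prime.factorization_pow Nat.prime_two] at h2
  simp at h2
  omega

lemma cc_succ (m : ℕ) : cc (m + 1) = 2 * cc m ∨ cc (m + 1) = 2 * cc m + 1 := by
  have h1 := cc_le m
  have h2 := lt_cc m
  have h3 := cc_le (m + 1)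
  have h4 := lt_cc (m + 1)
  have e : 2 ^ (2 * (m + 1) + 1) = 4 * 2 ^ (2 * m + 1) := by
    rw [show 2 * (m + 1) + 1 = 2 + (2 * m + 1) by ring, pow_add]; norm_num
  rw [e] at h3 h4
  have h5 : cc (m + 1) < 2 * cc m + 2 := by
    by_contra hc
    have : (2 * cc m + 2) ^ 2 ≤ cc (m + 1) ^ 2 := Nat.pow_le_pow_left (by omega) 2
    nlinarith
  have h6 : 2 * cc m < cc (m + 1) + 1 := by
    by_contra hc
    have : (cc (m + 1) + 1) ^ 2 ≤ (2 * cc m) ^ 2 := Nat.pow_le_pow_left (by omega) 2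
    nlinarith
  omega

/-- The block `01` occurs infinitely often in the binary expansion of `sqrt 2`. -/
theorem exists_digit (K : ℕ) : ∃ m, K ≤ m ∧ cc m % 4 = 1 := by
  by_contra hcon
  have hne : ∀ m, K ≤ m → cc m % 4 ≠ 1 := fun m hm h => hcon ⟨m, hm, h⟩
  by_cases hev : ∃ m, K ≤ m ∧ cc m % 2 = 0
  · obtain ⟨m, hm, hm2⟩ := hev
    have hind : ∀ i, cc (m + i) % 2 = 0 ∧ cc (m + i) = 2 ^ i * cc m := by
      intro i
      induction i with
      | zero => simp [hm2]
      | succ i ih =>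
        obtain ⟨ih1, ih2⟩ := ih
        have h1 := cc_succ (m + i)
        have h2 := hne (m + i + 1) (by omega)
        have h3 : cc (m + i + 1) = 2 * cc (m + i) := by omega
        refine ⟨by rw [← add_assoc, h3]; omega, ?_⟩
        rw [← add_assoc, h3, ih2]; ring
    have h1 := cc_lt m
    set c := cc m
    have h2 := (hind (2 * c + 2)).2
    have h3 := lt_cc (m + (2 * c + 2))
    rw [h2] at h3
    have h4 : 2 * c + 2 < 2 ^ (2 * c + 2) := Nat.lt_two_pow_self
    set P := 2 ^ (2 * c + 2)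
    have h5 : 2 ^ (2 * (m + (2 * c + 2)) + 1) = P * P * 2 ^ (2 * m + 1) := by
      simp only [P]
      rw [← pow_add, ← pow_add]; congr 1; ring
    rw [h5] at h3
    have h6 : P * P * (c ^ 2 + 1) ≤ P * P * 2 ^ (2 * m + 1) := Nat.mul_le_mul_left _ h1
    nlinarith
  · have hodd : ∀ m, K ≤ m → cc m % 2 = 1 := by
      intro m hm
      by_contra h
      exact hev ⟨m, hm, by omega⟩
    have hind : ∀ i, cc (K + i) + 1 = 2 ^ i * (cc K + 1) := by
      intro i
      induction i with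
      | zero => simp
      | succ i ih =>
        have h1 := cc_succ (K + i)
        have h2 := hodd (K + i + 1) (by omega)
        have h3 : cc (K + i + 1) = 2 * cc (K + i) + 1 := by omega
        rw [← add_assoc, h3]
        rw [pow_succ]
        nlinarith
    have h1 := lt_cc K
    set d := cc K + 1
    have h2 := hind (2 * d)
    have h3 := cc_le (K + 2 * d)
    have h4 : 2 * d < 2 ^ (2 * d) := Nat.lt_two_pow_self
    set P := 2 ^ (2 * d)
    have h5 : 2 ^ (2 * (K + 2 * d) + 1) = P * P * 2 ^ (2 * K + 1) := by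
      simp only [P]
      rw [← pow_add, ← pow_add]; congr 1; ring
    rw [h5] at h3
    have h6 : P * P * (2 ^ (2 * K + 1) + 1) ≤ P * P * d ^ 2 := Nat.mul_le_mul_left _ h1
    set y := cc (K + 2 * d)
    have h7 : (y + 1) ^ 2 = P * P * d ^ 2 := by rw [h2]; ring
    have h8 : y + 1 = P * d := h2
    nlinarith

end Pool.Agent.H.AD694
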