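import Pool.Agent.H.MP_694475_co.AD.Trans

set_option autoImplicit false

namespace Pool.Agent.H.AD694

open Finset

lemma sum_sgn_eq {n : ℕ} (f g : (Fin n → ZMod 2) → ZMod 2) :
    ∑ x, sgn (f x + g x) = 2 ^ n - 2 * (hammingDist f g : ℤ) := by
  have h1 : ∀ x, sgn (f x + g x) = 1 - 2 * (if f x ≠ g x then 1 else 0) := by
    intro x
    generalize f x = a
    generalize g x = b
    revert a b
    decide
  simp_rw [h1]
  rw [Finset.sum_sub_distrib, ← Finset.mul_sum]
  simp only [Finset.sum_const, Finset.card_univ, nsmul_eq_mul, mul_one]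
  rw [vcard]
  congr 2
  rw [hammingDist, Finset.card_filter]
  push_cast
  rfl

/-- Distance to the affine functions in terms of signed sums. -/
lemma cov_iff {n : ℕ} (f : V n → ZMod 2) (r : ℕ) :
    (∃ (b0 : ZMod 2) (b : Fin n → ZMod 2),
      hammingDist f (fun x => b0 + ∑ i, b i * x i) ≤ r) ↔
    ∃ φ : V n →ₗ[ZMod 2] ZMod 2, (2:ℤ) ^ n - 2 * r ≤ |S f φ| := by
  have key : ∀ (φ : V n →ₗ[ZMod 2] ZMod 2) (b0 : ZMod 2) (b : Fin n → ZMod 2),
      (∀ x, φ x = ∑ i, b i * x i) →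
      sgn b0 * S f φ = 2 ^ n - 2 * (hammingDist f (fun x => b0 + ∑ i, b i * x i) : ℤ) := by
    intro φ b0 b h
    rw [← sum_sgn_eq, S, Finset.mul_sum]
    apply Finset.sum_congr rfl
    intro x _
    rw [← h x, ← sgn_add]
    congr 1
    ring
  constructor
  · rintro ⟨b0, b, hd⟩
    obtain ⟨φ, hφ⟩ := exists_form b
    refine ⟨φ, ?_⟩
    have h1 := key φ b0 b hφ
    have h2 : ((hammingDist f (fun x => b0 + ∑ i, b i * x i) : ℕ) : ℤ) ≤ (r : ℤ) := by
      exact_mod_cast hd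
    rcases sgn_eq b0 with h | h
    · rw [h] at h1
      have h3 := le_abs_self (S f φ)
      linarith
    · rw [h] at h1
      have h3 := neg_le_abs (S f φ)
      linarith
  · rintro ⟨φ, hφ⟩
    obtain ⟨b, hb⟩ := exists_lin φ
    rcases abs_choice (S f φ) with h | h
    · refine ⟨0, b, ?_⟩
      have h1 := key φ 0 b hb
      rw [sgn_zero] at h1
      rw [h] at hφ
      have h2 : ((hammingDist f (fun x => (0 : ZMod 2) + ∑ i, b i * x i) : ℕ) : ℤ) ≤ (r : ℤ) := by
        linarith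
      exact_mod_cast h2
    · refine ⟨1, b, ?_⟩
      have h1 := key φ 1 b hb
      rw [sgn_one] at h1
      rw [h] at hφ
      have h2 : ((hammingDist f (fun x => (1 : ZMod 2) + ∑ i, b i * x i) : ℕ) : ℤ) ≤ (r : ℤ) := by
        linarith
      exact_mod_cast h2

/-- Every signed sum is `2 ^ n` minus an even number. -/
lemma S_even {n : ℕ} (f : V n → ZMod 2) (φ : V n →ₗ[ZMod 2] ZMod 2) :
    ∃ d : ℕ, S f φ = 2 ^ n - 2 * (d : ℤ) :=
  ⟨hammingDist f (fun x => φ x), by rw [← sum_sgn_eq, S]⟩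

end Pool.Agent.H.AD694
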