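import Pool.Agent.H.MP_694475_co.AD.Trans

set_option autoImplicit false

namespace Pool.Agent.H.AD694

open Finset

/-- Transport of a function with affine derivatives along a linear equivalence. -/
lemma low_transport {U U' : Type} [AddCommGroup U] [Module (ZMod 2) U] [Fintype U]
    [AddCommGroup U'] [Module (ZMod 2) U'] [Fintype U'] (e : U ≃ₗ[ZMod 2] U')
    (f : U → ZMod 2) (K : Submodule (ZMod 2) U) (hK : AffOn f K) (M : ℤ)
    (hM : ∀ φ : U →ₗ[ZMod 2] ZMod 2, |S f φ| ≤ M) :
    ∃ (f' : U' → ZMod 2) (K' : Submodule (ZMod 2) U'),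
      Module.finrank (ZMod 2) K' = Module.finrank (ZMod 2) K ∧ AffOn f' K' ∧
      ∀ φ : U' →ₗ[ZMod 2] ZMod 2, |S f' φ| ≤ M := by
  refine ⟨fun y => f (e.symm y), K.map (e : U →ₗ[ZMod 2] U'), ?_, ?_, ?_⟩
  · exact LinearEquiv.finrank_map_eq e K
  · intro h' hh'
    obtain ⟨h, hh, rfl⟩ := Submodule.mem_map.mp hh'
    obtain ⟨c, β, hβ⟩ := hK h hh
    refine ⟨c, β.comp e.symm.toLinearMap, fun y => ?_⟩
    have h1 : e.symm (y + e h) = e.symm y + h := by
      rw [map_add, LinearEquiv.symm_apply_apply]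
    show f (e.symm (y + e h)) + f (e.symm y) = c + β (e.symm y)
    rw [h1]
    exact hβ (e.symm y)
  · intro φ
    have h1 : (φ.comp e.toLinearMap).comp e.symm.toLinearMap = φ := by
      ext y
      show φ (e (e.symm y)) = φ y
      rw [LinearEquiv.apply_symm_apply]
    have h2 := S_equiv e f (φ.comp e.toLinearMap)
    rw [h1] at h2
    rw [h2]
    exact hM _

end Pool.Agent.H.AD694
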