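import Pool.Agent.H.MP_694475_co.AD.LowA
import Pool.Agent.H.MP_694475_co.AD.LowB

set_option autoImplicit false

namespace Pool.Agent.H.AD694

open Finset

private theorem low_finrank {U : Type} [AddCommGroup U] [Module (ZMod 2) U]
    [Module.Finite (ZMod 2) U] (K : Submodule (ZMod 2) U) :
    Module.finrank (ZMod 2) (K.prod (⊤ : Submodule (ZMod 2) (ZMod 2 × ZMod 2))) =
      Module.finrank (ZMod 2) K + 2 := by
  have h1 : K.prod (⊤ : Submodule (ZMod 2) (ZMod 2 × ZMod 2)) = LinearMap.range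
      (K.subtype.prodMap (LinearMap.id : (ZMod 2 × ZMod 2) →ₗ[ZMod 2] (ZMod 2 × ZMod 2))) := by
    rw [LinearMap.range_prodMap, Submodule.range_subtype, LinearMap.range_id]
  have h2 : Function.Injective
      (K.subtype.prodMap (LinearMap.id : (ZMod 2 × ZMod 2) →ₗ[ZMod 2] (ZMod 2 × ZMod 2))) := by
    rintro ⟨a, b⟩ ⟨a', b'⟩ h
    have h3 : (a : U) = a' := congrArg Prod.fst h
    have h4 : b = b' := congrArg Prod.snd h
    rw [Subtype.ext h3, h4]
  rw [h1, LinearMap.finrank_range_of_inj h2, Module.finrank_prod, Module.finrank_prod,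
    Module.finrank_self]

theorem main_low (m : ℕ) (M : ℤ) (g : V m → ZMod 2)
    (hg : ∀ φ : V m →ₗ[ZMod 2] ZMod 2, |S g φ| ≤ M) (t : ℕ) :
    ∃ (f : V (m + 2 * t) → ZMod 2) (K : Submodule (ZMod 2) (V (m + 2 * t))),
      Module.finrank (ZMod 2) K = 2 * t ∧ AffOn f K ∧
      ∀ φ : V (m + 2 * t) →ₗ[ZMod 2] ZMod 2, |S f φ| ≤ 2 ^ t * M := by
  induction t with
  | zero =>
    refine ⟨g, ⊥, ?_, ?_, ?_⟩
    · exact finrank_bot (ZMod 2) (V m)
    · intro h hh
      rw [Submodule.mem_bot] at hh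
      refine ⟨0, 0, fun x => ?_⟩
      rw [hh, add_zero, LinearMap.zero_apply, add_zero]
      exact CharTwo.add_self_eq_zero _
    · intro φ
      rw [pow_zero, one_mul]
      exact hg φ
  | succ t ih =>
    obtain ⟨f, K, hK1, hK2, hK3⟩ := ih
    obtain ⟨h1, h2⟩ := sharp_step f K hK2 (2 ^ t * M) hK3
    have hfr : Module.finrank (ZMod 2) (V (m + 2 * t) × (ZMod 2 × ZMod 2)) =
        Module.finrank (ZMod 2) (V (m + 2 * (t + 1))) := by
      rw [Module.finrank_prod, Module.finrank_prod, Module.finrank_self, Module.finrank_fin_fun,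
        Module.finrank_fin_fun]
      ring
    obtain ⟨f', K', h3, h4, h5⟩ := low_transport (LinearEquiv.ofFinrankEq _ _ hfr) _ _ h1 _ h2
    refine ⟨f', K', ?_, h4, fun φ => ?_⟩
    · rw [h3, low_finrank, hK1]
      ring
    · have h6 := h5 φ
      rw [pow_succ]
      linarith

end Pool.Agent.H.AD694
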