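import Pool.Agent.H.MP_694475_co.AD.Trans

set_option autoImplicit false

namespace Pool.Agent.H.AD694

open Finset

private lemma LowA_sgn (x y : ZMod 2) : sgn (x + y) = sgn x * sgn y := by
  revert x y
  decide

private lemma LowA_two (a b : ZMod 2) :
    |∑ y : ZMod 2 × ZMod 2, sgn (y.1 * y.2 + (a * y.1 + b * y.2))| = 2 := by
  revert a b
  decide

private lemma LowA_lin (ψ : (ZMod 2 × ZMod 2) →ₗ[ZMod 2] ZMod 2) (y : ZMod 2 × ZMod 2) :
    ψ y = ψ (1, 0) * y.1 + ψ (0, 1) * y.2 := by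
  have h : y = y.1 • ((1, 0) : ZMod 2 × ZMod 2) + y.2 • ((0, 1) : ZMod 2 × ZMod 2) := by
    ext
    · simp
    · simp
  calc ψ y = ψ (y.1 • ((1, 0) : ZMod 2 × ZMod 2) + y.2 • ((0, 1) : ZMod 2 × ZMod 2)) := by
        rw [← h]
    _ = ψ (1, 0) * y.1 + ψ (0, 1) * y.2 := by
        rw [map_add, map_smul, map_smul, smul_eq_mul, smul_eq_mul]
        ring

/-- Adding the product of two new variables. -/
lemma sharp_step {U : Type} [AddCommGroup U] [Module (ZMod 2) U] [Fintype U]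
    (f : U → ZMod 2) (K : Submodule (ZMod 2) U) (hK : AffOn f K) (M : ℤ)
    (hM : ∀ φ : U →ₗ[ZMod 2] ZMod 2, |S f φ| ≤ M) :
    AffOn (fun x : U × (ZMod 2 × ZMod 2) => f x.1 + x.2.1 * x.2.2)
        (K.prod (⊤ : Submodule (ZMod 2) (ZMod 2 × ZMod 2))) ∧
      ∀ φ : (U × (ZMod 2 × ZMod 2)) →ₗ[ZMod 2] ZMod 2,
        |S (fun x : U × (ZMod 2 × ZMod 2) => f x.1 + x.2.1 * x.2.2) φ| ≤ 2 * M := by
  constructor
  · rintro ⟨h, p, q⟩ hh
    obtain ⟨c, β, hβ⟩ := hK h (Submodule.mem_prod.1 hh).1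
    refine ⟨c + p * q, β ∘ₗ LinearMap.fst (ZMod 2) U (ZMod 2 × ZMod 2) +
      (q • (LinearMap.fst (ZMod 2) (ZMod 2) (ZMod 2)) +
        p • (LinearMap.snd (ZMod 2) (ZMod 2) (ZMod 2))) ∘ₗ
          LinearMap.snd (ZMod 2) U (ZMod 2 × ZMod 2), ?_⟩
    rintro ⟨x, u, v⟩
    have e1 := hβ x
    show f (x + h) + (u + p) * (v + q) + (f x + u * v) = c + p * q + (β x + (q * u + p * v))
    have e2 : ∀ u v p q : ZMod 2, (u + p) * (v + q) + u * v = p * q + (q * u + p * v) := by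
      decide
    linear_combination e1 + e2 u v p q
  · intro φ
    obtain ⟨φ₁, hφ₁⟩ : ∃ φ₁ : U →ₗ[ZMod 2] ZMod 2,
        φ₁ = φ ∘ₗ LinearMap.inl (ZMod 2) U (ZMod 2 × ZMod 2) := ⟨_, rfl⟩
    obtain ⟨ψ, hψ⟩ : ∃ ψ : (ZMod 2 × ZMod 2) →ₗ[ZMod 2] ZMod 2,
        ψ = φ ∘ₗ LinearMap.inr (ZMod 2) U (ZMod 2 × ZMod 2) := ⟨_, rfl⟩
    have hsplit : ∀ (x : U) (y : ZMod 2 × ZMod 2), φ (x, y) = φ₁ x + ψ y := by
      intro x y
      rw [hφ₁, hψ]
      show φ (x, y) = φ (x, 0) + φ (0, y)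
      rw [← map_add, Prod.mk_add_mk, add_zero, zero_add]
    have hS : S (fun x : U × (ZMod 2 × ZMod 2) => f x.1 + x.2.1 * x.2.2) φ =
        S f φ₁ * ∑ y : ZMod 2 × ZMod 2, sgn (y.1 * y.2 + (ψ (1, 0) * y.1 + ψ (0, 1) * y.2)) := by
      unfold S
      rw [Fintype.sum_prod_type, Finset.sum_mul]
      refine Finset.sum_congr rfl fun x _ => ?_
      rw [Finset.mul_sum]
      refine Finset.sum_congr rfl fun y _ => ?_
      rw [← LowA_sgn, hsplit, LowA_lin ψ y]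
      congr 1
      ring
    rw [hS, abs_mul, LowA_two, mul_comm]
    exact mul_le_mul_of_nonneg_left (hM φ₁) (by norm_num)

end Pool.Agent.H.AD694
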