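import Pool.Agent.H.MP_694475_co.AD.Main

set_option autoImplicit false

namespace Pool.Agent.H.AD694

open Finset

/-- An additive map to `F_2` is a dot product. -/
lemma exists_dot_of_add {n : ℕ} (f : V n → ZMod 2) (hf : ∀ a b, f (a + b) = f a + f b) :
    ∃ x : V n, ∀ a, f a = dot a x := by
  refine ⟨fun i => f (Pi.single i 1), fun a => ?_⟩
  have hf0 : f 0 = 0 := by
    have := hf 0 0
    rw [add_zero] at this
    have h2 := two_zero (f 0)
    rw [this, h2]
  let g : V n →+ ZMod 2 := { toFun := f, map_zero' := hf0, map_add' := hf }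
  have h1 : a = ∑ i, Pi.single i (a i) := (Finset.univ_sum_single a).symm
  have h2 : f a = ∑ i, f (Pi.single i (a i)) := by
    have : g a = ∑ i, g (Pi.single i (a i)) := by
      conv_lhs => rw [h1]
      rw [map_sum]
    exact this
  rw [h2]
  simp only [dot]
  apply Finset.sum_congr rfl
  intro i _
  rcases zmod2_cases (a i) with h | h
  · rw [h, Pi.single_zero, hf0, zero_mul]
  · rw [h, one_mul]

/-- The Walsh transform after changing the sign of one value. -/
lemma W_update {n : ℕ} (F : V n → ℤ) (x0 a : V n) :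
    W (Function.update F x0 (- F x0)) a = W F a - 2 * F x0 * sgn (dot a x0) := by
  simp only [W]
  have h1 : ∀ x, Function.update F x0 (- F x0) x * sgn (dot a x) =
      F x * sgn (dot a x) - (if x = x0 then 2 * F x0 * sgn (dot a x0) else 0) := by
    intro x
    by_cases h : x = x0
    · subst h; simp; ring
    · simp [h]
  simp_rw [h1]
  rw [Finset.sum_sub_distrib]
  simp

lemma sgn_mul_eq {z : ZMod 2} : sgn z * sgn z = 1 := sgn_sq z

/-- Case O: all Walsh values are congruent to two modulo four. -/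
lemma caseO {n : ℕ} (hn : Odd n) (hn5 : 5 ≤ n) (j : ℕ)
    (hj : (8 * (j:ℤ) + 2) ^ 2 + 28 ≤ 2 ^ n) (F : V n → ℤ) (hF : ∀ x, F x = 1 ∨ F x = -1)
    (hM : ∀ a, |W F a| ≤ 8 * j + 6) (hW : ∀ a, W F a % 4 = 2) : False := by
  set k : V n → ℤ := fun a => (W F a - 2) / 4 with hk
  have hWk : ∀ a, W F a = 2 + 4 * k a := by
    intro a
    have := hW a
    simp only [hk]
    omega
  set t : V n → ZMod 2 := fun a => (k a : ZMod 2) with ht
  have hlin : ∀ a b, t (a + b) + t 0 = (t a + t 0) + (t b + t 0) := by
    intro a b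
    have h := par2 (by omega) F hF 0 a b
    simp only [hWk, zero_add] at h
    have h2' : (2:ℤ) ∣ k 0 + k a + k b + k (a + b) := by omega
    have h3' := (ZMod.intCast_zmod_eq_zero_iff_dvd _ 2).2 (by exact_mod_cast h2')
    simp only [ht]
    push_cast at h3'
    have h2 : (2 : ZMod 2) = 0 := by decide
    linear_combination h3' - ((k a : ZMod 2) + (k b : ZMod 2) + (k 0 : ZMod 2)) * h2
  obtain ⟨x0, hx0⟩ := exists_dot_of_add (fun a => t a + t 0) (by intro a b; exact hlin a b)
  have ht' : ∀ a, t a = t 0 + dot a x0 := by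
    intro a
    have h2 : (2 : ZMod 2) = 0 := by decide
    linear_combination hx0 a - (t 0) * h2
  -- z a = - sgn (t a) * W a is congruent to six modulo eight
  set z : V n → ℤ := fun a => - (sgn (t a) * W F a) with hz
  have hz8 : ∀ a, z a % 8 = 6 := by
    intro a
    simp only [hz]
    rcases sgn_intCast (k a) with ⟨h1, h2⟩ | ⟨h1, h2⟩
    · simp only [ht]; rw [h2, hWk a]; omega
    · simp only [ht]; rw [h2, hWk a]; omega
  have hzb : ∀ a, -(8 * (j:ℤ) + 2) ≤ z a ∧ z a ≤ 8 * j + 6 := by
    intro a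
    have b := abs_le.1 (hM a)
    have e := hz8 a
    simp only [hz] at e ⊢
    rcases sgn_eq (t a) with h | h
    · rw [h] at e ⊢; constructor <;> omega
    · rw [h] at e ⊢; constructor <;> omega
  have hzsum : ∑ a, z a = - (sgn (t 0) * (2 ^ n * F x0)) := by
    rw [← W_inv F x0, Finset.mul_sum, ← Finset.sum_neg_distrib]
    apply Finset.sum_congr rfl
    intro a _
    simp only [hz]
    rw [ht' a, sgn_add]; ring
  -- flipping
  set F' := Function.update F x0 (- F x0) with hF'
  have hF'1 : ∀ x, F' x = 1 ∨ F' x = -1 := by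
    intro x
    by_cases h : x = x0
    · subst h
      simp only [hF', Function.update_self]
      rcases hF x with h | h <;> rw [h] <;> simp
    · simp only [hF', Function.update_of_ne h]
      exact hF x
  have hW' : ∀ a, W F' a = - sgn (t a) * (z a + 2 * (sgn (t 0) * F x0)) := by
    intro a
    rw [hF', W_update]
    have e1 : sgn (dot a x0) = sgn (t a) * sgn (t 0) := by
      rw [ht' a, sgn_add]
      have := sgn_sq (t 0)
      linear_combination (- sgn (dot a x0)) * this
    have e2 : W F a = - sgn (t a) * z a := by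
      simp only [hz]
      have := sgn_sq (t a)
      linear_combination (- W F a) * this
    rw [e1, e2]; ring
  have hT : (0:ℤ) < 2 ^ n := by positivity
  have hε : sgn (t 0) * F x0 = -1 ∨ sgn (t 0) * F x0 = 1 := by
    rcases sgn_eq (t 0) with h | h <;> rcases hF x0 with h' | h' <;> rw [h, h'] <;> simp
  rcases hε with hε | hε
  · -- back to case B
    have hb : ∀ a, |W F' a| ≤ 8 * j + 4 := by
      intro a
      rw [hW' a, hε]
      have := hzb a
      rcases sgn_eq (t a) with h | h
      · rw [h, abs_le]; constructor <;> omega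
      · rw [h, abs_le]; constructor <;> omega
    have hb8 : ∀ a, W F' a % 8 = 4 := by
      intro a
      rw [hW' a, hε]
      have := hz8 a
      rcases sgn_eq (t a) with h | h
      · rw [h]; omega
      · rw [h]; omega
    have := caseB hn hn5 F' hF'1 (8 * j + 4) hb (by omega) hb8
    nlinarith
  · -- the second case
    -- v = (z + 2) / 8
    set v : V n → ℤ := fun a => (z a + 2) / 8 with hv
    have hzv : ∀ a, z a + 2 = 8 * v a := by
      intro a
      have := hz8 a
      simp only [hv]
      omega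
    have hvb : ∀ a, -(j:ℤ) ≤ v a ∧ v a ≤ j + 1 := by
      intro a
      have h1 := hzb a
      have h2 := hzv a
      constructor <;> omega
    have hWv : ∀ a, W F' a = - sgn (t a) * (8 * v a) := by
      intro a
      rw [hW' a, hε, ← hzv a]; ring
    set s : V n → ZMod 2 := fun a => (v a : ZMod 2) with hs
    have hq : IsQuad s := by
      intro a h1 h2 h3
      have h := par3 (by omega) F' hF'1 a h1 h2 h3
      -- reduce signs
      have hd : ∀ b, ∃ m : ℤ, W F' b = 8 * v b + 16 * m := by
        intro b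
        rw [hWv b]
        rcases sgn_eq (t b) with h | h
        · exact ⟨- v b, by rw [h]; ring⟩
        · exact ⟨0, by rw [h]; ring⟩
      obtain ⟨m0, e0⟩ := hd a
      obtain ⟨m1, e1⟩ := hd (a + h1)
      obtain ⟨m2, e2⟩ := hd (a + h2)
      obtain ⟨m3, e3⟩ := hd (a + h3)
      obtain ⟨m4, e4⟩ := hd (a + h1 + h2)
      obtain ⟨m5, e5⟩ := hd (a + h1 + h3)
      obtain ⟨m6, e6⟩ := hd (a + h2 + h3)
      obtain ⟨m7, e7⟩ := hd (a + h1 + h2 + h3)
      rw [e0, e1, e2, e3, e4, e5, e6, e7] at h
      have h2' : (2:ℤ) ∣ v a + v (a + h1) + v (a + h2) + v (a + h3) + v (a + h1 + h2)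
        + v (a + h1 + h3) + v (a + h2 + h3) + v (a + h1 + h2 + h3) := by omega
      have h3' := (ZMod.intCast_zmod_eq_zero_iff_dvd _ 2).2 (by exact_mod_cast h2')
      simp only [hs]
      push_cast at h3'
      exact h3'
    have hqt : IsQuad t := by
      have : t = fun a => t 0 + dot a x0 := by funext a; exact ht' a
      rw [this]
      exact (isQuad_const _).add (isQuad_dot x0)
    -- the phase
    set c : ZMod 2 := ((j:ℤ) : ZMod 2) with hc
    have hQ : IsQuad (fun a => s a + (t a + c)) := hq.add (hqt.add (isQuad_const c))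
    have hM' : ∀ a, |W F' a| ≤ 8 * j + 8 := by
      intro a
      rw [hWv a]
      have := hvb a
      rcases sgn_eq (t a) with h | h
      · rw [h, abs_le]; constructor <;> omega
      · rw [h, abs_le]; constructor <;> omega
    have hcorr := corr_quad hn F' hF'1 hQ (8 * j + 8) (by positivity) hM'
    -- W' * phase = - 8 v * sgn (s + c)
    have hph : ∀ a, W F' a * sgn (s a + (t a + c)) = -(8 * (v a * sgn (s a + c))) := by
      intro a
      rw [hWv a, sgn_add, sgn_add, sgn_add]
      have := sgn_sq (t a)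
      linear_combination (- 8 * v a * sgn (s a) * sgn c) * this
    simp_rw [hph] at hcorr
    rw [Finset.sum_neg_distrib, ← Finset.mul_sum] at hcorr
    -- pointwise inequality
    have hpt : ∀ a, (2 * (j:ℤ) + 1) * j + (v a + j) + (2 * (j:ℤ) + 1) * (v a * sgn (s a + c)) ≤
        (2 * (j:ℤ) + 2) * ((v a + j) * (j + 1 - v a)) := by
      intro a
      obtain ⟨b1, b2⟩ := hvb a
      have hj0 : (0:ℤ) ≤ j := by positivity
      have hcast : s a + c = ((v a + j : ℤ) : ZMod 2) := by
        simp only [hs, hc]; push_cast; ring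
      rw [hcast]
      rcases sgn_intCast (v a + j) with ⟨h1, h2⟩ | ⟨h1, h2⟩
      · rw [h2]
        -- even: s (2j+2) ≤ (2j+2) s (2j+1-s)
        have h3 : 0 ≤ j - v a := by
          by_contra hneg
          have : v a = j + 1 := by omega
          omega
        have h4 : 0 ≤ v a + j := by omega
        nlinarith [mul_nonneg h3 h4, mul_nonneg hj0 (mul_nonneg h3 h4)]
      · rw [h2]
        have h3 : 0 ≤ j + 1 - v a := by omega
        have h4 : 0 ≤ v a + j - 1 := by omega
        nlinarith [mul_nonneg h3 h4, mul_nonneg hj0 (mul_nonneg h3 h4)]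
    have hsum := Finset.sum_le_sum (fun a (_ : a ∈ (Finset.univ : Finset (V n))) => hpt a)
    have hvsum : 8 * ∑ a, v a = 2 ^ n := by
      rw [Finset.mul_sum]
      simp_rw [← hzv]
      rw [Finset.sum_add_distrib, hzsum]
      simp only [Finset.sum_const, Finset.card_univ, nsmul_eq_mul]
      rw [vcard]
      linear_combination (- (2:ℤ)^n) * hε
    have hvsq : 64 * ∑ a, v a ^ 2 = 4 ^ n := by
      rw [← parseval F' hF'1, Finset.mul_sum]
      apply Finset.sum_congr rfl
      intro a _
      rw [hWv a]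
      have := sgn_sq (t a)
      linear_combination (-(64 * v a ^ 2)) * this
    have h4 : (4:ℤ) ^ n = 2 ^ n * 2 ^ n := by rw [← mul_pow]; norm_num
    rw [h4] at hvsq
    have e1 : ∑ a : V n, ((2 * (j:ℤ) + 1) * j + (v a + j) + (2 * (j:ℤ) + 1) * (v a * sgn (s a + c))) =
        2 ^ n * ((2 * (j:ℤ) + 1) * j + j) + ∑ a, v a + (2 * (j:ℤ) + 1) * ∑ a, v a * sgn (s a + c) := by
      have hconst : ∑ _a : V n, ((2 * (j:ℤ) + 1) * j + j) =
          2 ^ n * ((2 * (j:ℤ) + 1) * j + j) := by
        simp only [Finset.sum_const, Finset.card_univ, nsmul_eq_mul]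
        rw [vcard]
      rw [← hconst, Finset.mul_sum, ← Finset.sum_add_distrib, ← Finset.sum_add_distrib]
      apply Finset.sum_congr rfl
      intro a _
      ring
    have e2 : ∑ a : V n, (2 * (j:ℤ) + 2) * ((v a + j) * (j + 1 - v a)) =
        (2 * (j:ℤ) + 2) * (2 ^ n * (j * (j + 1)) + ∑ a, v a - ∑ a, v a ^ 2) := by
      rw [← Finset.mul_sum]
      congr 1
      have : ∀ a, (v a + j) * (j + 1 - v a) = (j:ℤ) * (j + 1) + v a - v a ^ 2 := by intro a; ring
      simp_rw [this]
      rw [Finset.sum_sub_distrib, Finset.sum_add_distrib]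
      simp only [Finset.sum_const, Finset.card_univ, nsmul_eq_mul]
      rw [vcard]
    rw [e1, e2] at hsum
    set T : ℤ := 2 ^ n with hTdef
    set S1 := ∑ a, v a
    set S2 := ∑ a, v a ^ 2
    set S3 := ∑ a, v a * sgn (s a + c)
    have hj0 : (0:ℤ) ≤ j := by positivity
    -- hcorr : 2 * (-(8 * S3)) ≤ (8 j + 8) * T
    have hS3 : -(((j:ℤ) + 1) * T) ≤ 2 * S3 := by nlinarith
    -- multiply hsum by 64
    have h64 : 64 * (T * ((2 * (j:ℤ) + 1) * j + j)) + 8 * T - 32 * (2 * j + 1) * ((j + 1) * T) ≤
        (2 * (j:ℤ) + 2) * (64 * (T * (j * (j + 1))) + 8 * T - T * T) := by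
      nlinarith
    have h65 : 64 * ((2 * (j:ℤ) + 1) * j + j) + 8 - 32 * (2 * j + 1) * (j + 1) ≤
        (2 * (j:ℤ) + 2) * (64 * (j * (j + 1)) + 8 - T) := by
      have : T * (64 * ((2 * (j:ℤ) + 1) * j + j) + 8 - 32 * (2 * j + 1) * (j + 1)) ≤
        T * ((2 * (j:ℤ) + 2) * (64 * (j * (j + 1)) + 8 - T)) := by nlinarith
      exact le_of_mul_le_mul_left this hT
    nlinarith

end Pool.Agent.H.AD694
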