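import Pool.Agent.H.MP_694475_co.AD.Walsh

set_option autoImplicit false

namespace Pool.Agent.H.AD694

open Finset

/-- Polynomials of degree at most two on `F_2 ^ n`, by parallelepipeds. -/
def IsQuad {n : ℕ} (t : V n → ZMod 2) : Prop :=
  ∀ a h1 h2 h3, t a + t (a + h1) + t (a + h2) + t (a + h3) + t (a + h1 + h2)
      + t (a + h1 + h3) + t (a + h2 + h3) + t (a + h1 + h2 + h3) = 0

lemma IsQuad.add {n : ℕ} {s t : V n → ZMod 2} (hs : IsQuad s) (ht : IsQuad t) :
    IsQuad (fun a => s a + t a) := by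
  intro a h1 h2 h3
  have e1 := hs a h1 h2 h3
  have e2 := ht a h1 h2 h3
  linear_combination e1 + e2

lemma isQuad_const {n : ℕ} (c : ZMod 2) : IsQuad (fun _ : V n => c) := by
  intro a h1 h2 h3
  have : (2 : ZMod 2) = 0 := by decide
  linear_combination (4 * c) * this

lemma isQuad_dot {n : ℕ} (x : V n) : IsQuad (fun a : V n => dot a x) := by
  intro a h1 h2 h3
  simp only [add_dot]
  have : (2 : ZMod 2) = 0 := by decide
  linear_combination (4 * dot a x + 2 * dot h1 x + 2 * dot h2 x + 2 * dot h3 x) * this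

/-- A quadratic polynomial in an odd number of variables has a linear structure. -/
lemma IsQuad.exists_lin {n : ℕ} (hn : Odd n) {t : V n → ZMod 2} (ht : IsQuad t) :
    ∃ l : V n, l ≠ 0 ∧ ∃ c, ∀ a, t (a + l) = t a + c := by
  by_contra hcon
  set B : V n → V n → ZMod 2 := fun a h => t 0 + t a + t h + t (a + h) with hB
  have hadd : ∀ a a' h, B (a + a') h = B a h + B a' h := by
    intro a a' h
    have e := ht 0 a a' h
    simp only [zero_add] at e
    simp only [hB]
    have h2 : (2 : ZMod 2) = 0 := by decide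
    have h3 := two_zero (t 0)
    linear_combination e - (t a + t a' + t h + t (a+h) + t (a'+h)) * h2 - h3 + (t 0 - t 0) * h2
  have hne : ∀ h : V n, h ≠ 0 → ∃ a, B a h = 1 := by
    intro h hh
    by_contra hc
    apply hcon
    refine ⟨h, hh, t 0 + t h, ?_⟩
    intro a
    have hb : B a h = 0 := by
      rcases zmod2_cases (B a h) with e | e
      · exact e
      · exact absurd ⟨a, e⟩ hc
    simp only [hB] at hb
    have h2 : (2 : ZMod 2) = 0 := by decide
    linear_combination hb - (t 0 + t a + t h) * h2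
  have hsum : ∀ h : V n, h ≠ 0 → ∑ a, sgn (B a h) = 0 := by
    intro h hh
    obtain ⟨b, hb⟩ := hne h hh
    have h1 : ∑ a : V n, sgn (B a h) = ∑ a : V n, sgn (B (a + b) h) :=
      (Equiv.sum_comp (Equiv.addRight b) (fun a => sgn (B a h))).symm
    have h2 : ∑ a : V n, sgn (B (a + b) h) = - ∑ a : V n, sgn (B a h) := by
      rw [← Finset.sum_neg_distrib]
      apply Finset.sum_congr rfl
      intro a _
      rw [hadd, sgn_add, hb, sgn_one]; ring
    linarith
  have hB0 : ∀ a, B a 0 = 0 := by
    intro a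
    simp only [hB, add_zero]
    have h2 : (2 : ZMod 2) = 0 := by decide
    linear_combination (t 0 + t a) * h2
  set S : ℤ := ∑ a, sgn (t a) with hS
  have hSS : S * S = 2 ^ n := by
    rw [hS, Finset.sum_mul_sum]
    have h1 : ∀ a : V n, ∑ b, sgn (t a) * sgn (t b) = ∑ h, sgn (t 0 + t h) * sgn (B a h) := by
      intro a
      rw [← Equiv.sum_comp (Equiv.addLeft a) (fun b => sgn (t a) * sgn (t b))]
      apply Finset.sum_congr rfl
      intro h _
      simp only [Equiv.coe_addLeft]
      rw [← sgn_add, ← sgn_add]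
      congr 1
      simp only [hB]
      have h2 : (2 : ZMod 2) = 0 := by decide
      linear_combination (- (t 0 + t h)) * h2
    simp_rw [h1]
    rw [Finset.sum_comm]
    simp_rw [← Finset.mul_sum]
    rw [Finset.sum_eq_single 0]
    · simp_rw [hB0]
      rw [two_zero, sgn_zero]
      simp
    · intro h _ hh
      rw [hsum h hh, mul_zero]
    · simp
  obtain ⟨k, hk⟩ := hn
  have h1 : S.natAbs * S.natAbs = 2 ^ n := by
    have := congrArg Int.natAbs hSS
    rw [Int.natAbs_mul, Int.natAbs_pow] at this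
    simpa using this
  have h2 : (S.natAbs * S.natAbs).factorization 2 = (2 ^ n).factorization 2 := by rw [h1]
  have hS0 : S.natAbs ≠ 0 := by
    intro h0
    rw [h0] at h1
    have : 0 < 2 ^ n := by positivity
    omega
  rw [Nat.factorization_mul hS0 hS0, Nat.Prime.factorization_pow Nat.prime_two] at h2
  simp at h2
  omega

/-- The correlation of the Walsh transform with a quadratic phase is at most half the maximum. -/
lemma corr_quad {n : ℕ} (hn : Odd n) (F : V n → ℤ) (hF : ∀ x, F x = 1 ∨ F x = -1)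
    {t : V n → ZMod 2} (ht : IsQuad t) (M : ℤ) (hM0 : 0 < M) (hM : ∀ a, |W F a| ≤ M) :
    2 * ∑ a, W F a * sgn (t a) ≤ M * 2 ^ n := by
  obtain ⟨l, hl, c, hc⟩ := ht.exists_lin hn
  have hFF : ∀ x, F x * F x = 1 := by
    intro x; rcases hF x with h | h <;> rw [h] <;> norm_num
  have hcorr := W_corr F hFF l
  rw [if_neg hl] at hcorr
  set e := sgn c with he
  have hee : e * e = 1 := sgn_sq c
  have he' : e = 1 ∨ e = -1 := sgn_eq c
  have hpt : ∀ a, 4 * M * ((W F a + e * W F (a + l)) * sgn (t a)) ≤
      4 * M ^ 2 + 4 * e * (W F a * W F (a + l)) := by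
    intro a
    have h1 := abs_le.1 (hM a)
    have h2 := abs_le.1 (hM (a + l))
    set p := W F a
    set q := W F (a + l)
    rcases he' with h | h <;> rcases sgn_eq (t a) with h' | h' <;> rw [h, h']
    · nlinarith [mul_nonneg (sub_nonneg.2 h1.2) (sub_nonneg.2 h2.2)]
    · nlinarith [mul_nonneg (sub_nonneg.2 h1.1) (sub_nonneg.2 h2.1)]
    · nlinarith [mul_nonneg (sub_nonneg.2 h1.2) (sub_nonneg.2 h2.1)]
    · nlinarith [mul_nonneg (sub_nonneg.2 h1.1) (sub_nonneg.2 h2.2)]
  have hsum := Finset.sum_le_sum (fun a (_ : a ∈ (Finset.univ : Finset (V n))) => hpt a)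
  rw [← Finset.mul_sum, Finset.sum_add_distrib, ← Finset.mul_sum Finset.univ (fun a => W F a * W F (a + l)), hcorr] at hsum
  simp only [Finset.sum_const, Finset.card_univ, nsmul_eq_mul, mul_zero, add_zero] at hsum
  have hcard : (Fintype.card (V n) : ℤ) = 2 ^ n := by simp [V]
  rw [hcard] at hsum
  have hsplit : ∑ a, (W F a + e * W F (a + l)) * sgn (t a) = 2 * ∑ a, W F a * sgn (t a) := by
    have h1 : ∀ a, (W F a + e * W F (a + l)) * sgn (t a) =
        W F a * sgn (t a) + W F (a + l) * sgn (t (a + l)) := by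
      intro a
      rw [hc a, sgn_add]
      ring
    simp_rw [h1]
    rw [Finset.sum_add_distrib]
    have h2 : ∑ a : V n, W F (a + l) * sgn (t (a + l)) = ∑ a : V n, W F a * sgn (t a) :=
      Equiv.sum_comp (Equiv.addRight l) (fun a => W F a * sgn (t a))
    rw [h2]; ring
  rw [hsplit] at hsum
  nlinarith

end Pool.Agent.H.AD694
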