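import Pool.Agent.H.MP_694475_co.AD.Defs

set_option autoImplicit false

namespace Pool.Agent.H.AD694

open Finset

/-- An affine derivative in direction `h` halves the dimension of the problem. -/
lemma step {U : Type} [AddCommGroup U] [Module (ZMod 2) U] [Fintype U]
    (f : U → ZMod 2) (h : U) (c : ZMod 2) (β lam : U →ₗ[ZMod 2] ZMod 2)
    (hf : ∀ x, f (x + h) + f x = c + β x) (hl : lam h = 1)
    (C : Submodule (ZMod 2) U) [Fintype C] (hC : ∀ x, x ∈ C ↔ β x = 0 ∧ lam x = 0)
    (ψ : C →ₗ[ZMod 2] ZMod 2) :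
    ∃ φ : U →ₗ[ZMod 2] ZMod 2, S f φ = 2 * S (fun x : C => f x) ψ := by
  classical
  obtain ⟨φ0, hφ0⟩ := LinearMap.exists_extend ψ
  let φ : U →ₗ[ZMod 2] ZMod 2 := φ0 + (c - φ0 h) • lam
  have hφh : φ h = c := by
    simp only [φ, LinearMap.add_apply, LinearMap.smul_apply, smul_eq_mul, hl]
    ring
  have hφC : ∀ x : C, φ x = ψ x := by
    intro x
    have h1 : lam (x : U) = 0 := ((hC x).mp x.2).2
    have h2 : φ0 (x : U) = ψ x := by
      rw [← hφ0]
      rfl
    simp only [φ, LinearMap.add_apply, LinearMap.smul_apply, smul_eq_mul, h1, h2]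
    ring
  have hhh : h + h = 0 := by
    have h1 : (2 : ZMod 2) • h = 0 := by
      have h2 : (2 : ZMod 2) = 0 := rfl
      rw [h2, zero_smul]
    rwa [two_smul] at h1
  have hβh : β h = 0 := by
    have h1 := hf 0
    have h2 := hf h
    rw [zero_add, map_zero, add_zero] at h1
    rw [hhh, add_comm, h1] at h2
    have h3 : c + 0 = c + β h := by rw [add_zero]; exact h2
    exact (add_left_cancel h3).symm
  set G : U → ℤ := fun x => sgn (f x + φ x) with hG
  have hGh : ∀ x, G (x + h) = G x * sgn (β x) := by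
    intro x
    rw [hG]
    show sgn (f (x + h) + φ (x + h)) = sgn (f x + φ x) * sgn (β x)
    rw [← sgn_add]
    congr 1
    have h1 := hf x
    rw [map_add, hφh]
    have h2 := two_zero (f x)
    have h3 := two_zero c
    linear_combination h1 - h2 + h3
  have hlh : ∀ x, sgn (lam (x + h)) = - sgn (lam x) := by
    intro x
    rw [map_add, hl, sgn_add, sgn_one]
    ring
  have hsh : ∀ k : U → ℤ, ∑ x, k (x + h) = ∑ x, k x := by
    intro k
    exact Equiv.sum_comp (Equiv.addRight h) k
  have e1 : ∑ x, G x * sgn (β x) = ∑ x, G x := by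
    rw [← hsh G]
    exact Finset.sum_congr rfl fun x _ => (hGh x).symm
  have e2 : ∑ x, G x * sgn (lam x) * (1 + sgn (β x)) = 0 := by
    have h1 : ∑ x, G x * sgn (lam x) * (1 + sgn (β x)) =
        - ∑ x, G x * sgn (lam x) * (1 + sgn (β x)) := by
      rw [← Finset.sum_neg_distrib, ← hsh (fun x => G x * sgn (lam x) * (1 + sgn (β x)))]
      apply Finset.sum_congr rfl
      intro x _
      rw [hGh, hlh, map_add, hβh, add_zero]
      have h2 := sgn_sq (β x)
      linear_combination (- (G x * sgn (lam x))) * h2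
    linarith
  have e3 : ∑ x, G x * (1 + sgn (β x)) * (1 + sgn (lam x)) = 2 * ∑ x, G x := by
    have h1 : ∀ x, G x * (1 + sgn (β x)) * (1 + sgn (lam x)) =
        G x + G x * sgn (β x) + G x * sgn (lam x) * (1 + sgn (β x)) := by
      intro x
      ring
    rw [Finset.sum_congr rfl fun x _ => h1 x, Finset.sum_add_distrib, Finset.sum_add_distrib, e1, e2]
    ring
  have e4 : ∑ x, G x * (1 + sgn (β x)) * (1 + sgn (lam x)) = 4 * ∑ x : C, G x := by
    have h1 : ∀ x, G x * (1 + sgn (β x)) * (1 + sgn (lam x)) = if x ∈ C then 4 * G x else 0 := by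
      intro x
      by_cases hx : x ∈ C
      · obtain ⟨h2, h3⟩ := (hC x).mp hx
        rw [if_pos hx, h2, h3, sgn_zero]
        ring
      · rw [if_neg hx]
        rcases zmod2_cases (β x) with h2 | h2
        · rcases zmod2_cases (lam x) with h3 | h3
          · exact absurd ((hC x).mpr ⟨h2, h3⟩) hx
          · rw [h3, sgn_one]
            ring
        · rw [h2, sgn_one]
          ring
    rw [Finset.sum_congr rfl fun x _ => h1 x, ← Finset.sum_filter, Finset.mul_sum]
    rw [← Finset.sum_subtype (Finset.univ.filter (fun x => x ∈ C)) (p := fun x => x ∈ C)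
      (by intro x; simp) (fun x => 4 * G x)]
  refine ⟨φ, ?_⟩
  have e5 : S f φ = ∑ x, G x := rfl
  have e6 : S (fun x : C => f x) ψ = ∑ x : C, G x := by
    unfold S
    apply Finset.sum_congr rfl
    intro x _
    show sgn (f x + ψ x) = sgn (f x + φ x)
    rw [hφC]
  rw [e5, e6]
  linarith

end Pool.Agent.H.AD694
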