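import Pool.Agent.H.MP_694475_co.AD.Defs

set_option autoImplicit false

namespace Pool.Agent.H.AD694

open Finset

/-- Linear forms on `V n` are given by vectors. -/
lemma exists_lin {n : ℕ} (φ : V n →ₗ[ZMod 2] ZMod 2) :
    ∃ b : V n, ∀ x, φ x = ∑ i, b i * x i := by
  refine ⟨fun i => φ fun j => if i = j then 1 else 0, fun x => ?_⟩
  rw [LinearMap.pi_apply_eq_sum_univ φ x]
  refine Finset.sum_congr rfl fun i _ => ?_
  rw [smul_eq_mul, mul_comm]

/-- Vectors give linear forms. -/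
lemma exists_form {n : ℕ} (b : V n) :
    ∃ φ : V n →ₗ[ZMod 2] ZMod 2, ∀ x, φ x = ∑ i, b i * x i := by
  refine ⟨{ toFun := fun x => ∑ i, b i * x i
            map_add' := fun x y => ?_
            map_smul' := fun c x => ?_ }, fun x => rfl⟩
  · rw [← Finset.sum_add_distrib]
    exact Finset.sum_congr rfl fun i _ => mul_add _ _ _
  · rw [Finset.smul_sum]
    refine Finset.sum_congr rfl fun i _ => ?_
    change b i * (c * x i) = c * (b i * x i)
    ring

/-- Transport of signed sums along a linear equivalence. -/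
lemma S_equiv {U U' : Type} [AddCommGroup U] [Module (ZMod 2) U] [Fintype U]
    [AddCommGroup U'] [Module (ZMod 2) U'] [Fintype U'] (e : U ≃ₗ[ZMod 2] U')
    (f : U → ZMod 2) (φ : U →ₗ[ZMod 2] ZMod 2) :
    S (fun y => f (e.symm y)) (φ.comp e.symm.toLinearMap) = S f φ :=
  Equiv.sum_comp e.symm.toEquiv (fun x => sgn (f x + φ x))

/-- Parseval: some signed sum is large. -/
lemma exists_large {U : Type} [AddCommGroup U] [Module (ZMod 2) U] [Fintype U]
    (f : U → ZMod 2) :
    ∃ φ : U →ₗ[ZMod 2] ZMod 2, (2:ℤ) ^ (Module.finrank (ZMod 2) U) ≤ (S f φ) ^ 2 := by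
  have hfin : Module.Finite (ZMod 2) U := Module.Finite.of_finite
  obtain ⟨n, hn⟩ : ∃ n, n = Module.finrank (ZMod 2) U := ⟨_, rfl⟩
  have e : U ≃ₗ[ZMod 2] V n := LinearEquiv.ofFinrankEq U (V n) (by
    rw [Module.finrank_fin_fun, hn])
  rw [← hn]
  have hp := parseval (n := n) (fun x => sgn (f (e.symm x))) (fun x => sgn_eq _)
  obtain ⟨a, ha⟩ : ∃ a : V n, (2:ℤ) ^ n ≤ W (fun x => sgn (f (e.symm x))) a ^ 2 := by
    by_contra hcon
    push Not at hcon
    have h1 : ∑ a : V n, W (fun x => sgn (f (e.symm x))) a ^ 2 < ∑ _a : V n, (2:ℤ) ^ n :=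
      Finset.sum_lt_sum_of_nonempty Finset.univ_nonempty fun a _ => hcon a
    rw [hp, Finset.sum_const, Finset.card_univ, nsmul_eq_mul, vcard, ← mul_pow] at h1
    norm_num at h1
  obtain ⟨φ', hφ'⟩ := exists_form a
  have h2 : S (fun y => f (e.symm y)) φ' = W (fun x => sgn (f (e.symm x))) a := by
    unfold S W
    refine Finset.sum_congr rfl fun x _ => ?_
    rw [sgn_add, hφ']
    rfl
  refine ⟨φ'.comp e.toLinearMap, ?_⟩
  have h3 : S (fun y => f (e.symm y)) ((φ'.comp e.toLinearMap).comp e.symm.toLinearMap) =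
      S f (φ'.comp e.toLinearMap) := S_equiv e f _
  have h4 : (φ'.comp e.toLinearMap).comp e.symm.toLinearMap = φ' := by
    ext x
    simp
  rw [← h3, h4, h2]
  exact ha

end Pool.Agent.H.AD694
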