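import Pool.Agent.H.MP_694475_co.AD.Step
import Pool.Agent.H.MP_694475_co.AD.Trans

set_option autoImplicit false

namespace Pool.Agent.H.AD694

open Finset

theorem main_up (m : ℕ) (M : ℤ) (hM0 : 0 ≤ M) (hMM : M ^ 2 ≤ 2 ^ (m + 1))
    (base : ∀ (U : Type) [AddCommGroup U] [Module (ZMod 2) U] [Fintype U],
      Module.finrank (ZMod 2) U = m → ∀ f : U → ZMod 2,
        ∃ φ : U →ₗ[ZMod 2] ZMod 2, M ≤ |S f φ|) (t : ℕ) :
    ∀ (U : Type) [AddCommGroup U] [Module (ZMod 2) U] [Fintype U],
      Module.finrank (ZMod 2) U = m + 2 * t → ∀ (f : U → ZMod 2) (K : Submodule (ZMod 2) U),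
        2 * t ≤ Module.finrank (ZMod 2) K + 1 → AffOn f K →
        ∃ φ : U →ₗ[ZMod 2] ZMod 2, 2 ^ t * M ≤ |S f φ| := by
  induction t with
  | zero =>
    intro U _ _ _ hU f K _ _
    obtain ⟨φ, hφ⟩ := base U (by simpa using hU) f
    exact ⟨φ, by simpa using hφ⟩
  | succ t ih =>
    intro U _ _ _ hU f K hK hA
    have hKne : K ≠ ⊥ := by
      rintro rfl
      rw [finrank_bot] at hK
      omega
    obtain ⟨h, hhK, hh0⟩ := (Submodule.ne_bot_iff K).1 hKne
    obtain ⟨c, β, hcβ⟩ := hA h hhK
    obtain ⟨lam, hlam⟩ : ∃ lam : U →ₗ[ZMod 2] ZMod 2, lam h = 1 := by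
      by_contra hcon
      apply hh0
      rw [← Module.forall_dual_apply_eq_zero_iff (ZMod 2) h]
      intro φ
      rcases zmod2_cases (φ h) with h0 | h1
      · exact h0
      · exact absurd ⟨φ, h1⟩ hcon
    have hhh : h + h = 0 := by
      have := two_smul (ZMod 2) h
      rw [← this, show (2 : ZMod 2) = 0 from rfl, zero_smul]
    have hβh : β h = 0 := by
      have e1 := hcβ 0
      have e2 := hcβ h
      rw [hhh] at e2
      rw [zero_add, map_zero] at e1
      have e3 : c + β h = c + 0 := by rw [← e2, ← e1, add_comm]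
      exact add_left_cancel e3
    set L : U →ₗ[ZMod 2] (ZMod 2 × ZMod 2) := β.prod lam with hL
    have hLx : ∀ x, L x = (β x, lam x) := fun x => rfl
    set C : Submodule (ZMod 2) U := LinearMap.ker L with hC
    have hCmem : ∀ x, x ∈ C ↔ β x = 0 ∧ lam x = 0 := by
      intro x
      rw [hC, LinearMap.mem_ker, hLx, Prod.mk_eq_zero]
    let _ : Fintype C := Fintype.ofFinite C
    have hrn := LinearMap.finrank_range_add_finrank_ker L
    by_cases hβ : β = 0
    · have hr1 : Module.finrank (ZMod 2) (LinearMap.range L) ≤ 1 := by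
        have hle : LinearMap.range L ≤ LinearMap.range (LinearMap.inr (ZMod 2) (ZMod 2) (ZMod 2)) := by
          rintro _ ⟨x, rfl⟩
          refine ⟨lam x, ?_⟩
          rw [hL, hβ]
          simp
        have h1 := Submodule.finrank_mono hle
        have h2 := LinearMap.finrank_range_le (LinearMap.inr (ZMod 2) (ZMod 2) (ZMod 2))
        have h3 : Module.finrank (ZMod 2) (ZMod 2) = 1 := Module.finrank_self _
        omega
      obtain ⟨ψ, hψ⟩ := exists_large (fun x : C => f x)
      obtain ⟨φ, hφ⟩ := step f h c β lam hcβ hlam C hCmem ψ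
      refine ⟨φ, ?_⟩
      have hdim : m + 2 * t + 1 ≤ Module.finrank (ZMod 2) C := by
        rw [hC]; omega
      have hp : (2:ℤ) ^ (m + 2 * t + 1) ≤ 2 ^ (Module.finrank (ZMod 2) C) :=
        pow_le_pow_right₀ (by norm_num) hdim
      have hsq : (2 ^ (t + 1) * M) ^ 2 ≤ |S f φ| ^ 2 := by
        rw [sq_abs, hφ]
        have e1 : (2 ^ (t + 1) * M) ^ 2 = 4 * (2 ^ (2 * t) * M ^ 2) := by ring
        have e2 : (2:ℤ) ^ (m + 2 * t + 1) = 2 ^ (2 * t) * 2 ^ (m + 1) := by ring
        rw [e1]
        have e3 : (2:ℤ) ^ (2 * t) * M ^ 2 ≤ 2 ^ (2 * t) * 2 ^ (m + 1) :=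
          mul_le_mul_of_nonneg_left hMM (by positivity)
        nlinarith
      exact (le_abs_self _).trans (abs_le_of_sq_le_sq hsq (abs_nonneg _))
    · obtain ⟨v, hv⟩ : ∃ v, β v = 1 := by
        by_contra hcon
        apply hβ
        ext x
        rcases zmod2_cases (β x) with h0 | h1
        · exact h0
        · exact absurd ⟨x, h1⟩ hcon
      have hrtop : LinearMap.range L = ⊤ := by
        rw [LinearMap.range_eq_top]
        rintro ⟨p, q⟩
        refine ⟨p • v + (q - p * lam v) • h, ?_⟩
        rw [hLx]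
        simp only [map_add, map_smul, hv, hβh, hlam, smul_eq_mul,
          mul_one, mul_zero, add_zero]
        rw [Prod.mk.injEq]
        exact ⟨rfl, by ring⟩
      have hr2 : Module.finrank (ZMod 2) (LinearMap.range L) = 2 := by
        rw [hrtop, finrank_top, Module.finrank_prod, Module.finrank_self]
      have hdim : Module.finrank (ZMod 2) C = m + 2 * t := by
        rw [hC]; omega
      have hKC : Module.finrank (ZMod 2) (K.comap C.subtype) = Module.finrank (ZMod 2) (K ⊓ C : Submodule (ZMod 2) U) := by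
        rw [← Submodule.finrank_map_subtype_eq C (K.comap C.subtype), Submodule.map_comap_subtype,
          inf_comm]
      have hsum := Submodule.finrank_sup_add_finrank_inf_eq K C
      have hle := Submodule.finrank_le (K ⊔ C)
      obtain ⟨ψ, hψ⟩ := ih C hdim (fun x : C => f x) (K.comap C.subtype) (by omega) (by
        intro h' hh'
        obtain ⟨c', β', hc'⟩ := hA h' hh'
        refine ⟨c', β'.comp C.subtype, fun x => ?_⟩
        exact hc' x)
      obtain ⟨φ, hφ⟩ := step f h c β lam hcβ hlam C hCmem ψ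
      refine ⟨φ, ?_⟩
      rw [hφ, abs_mul, abs_two, pow_succ]
      linarith

end Pool.Agent.H.AD694
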