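import Pool.Agent.H.MP_694475_co.AD.Dist
import Pool.Agent.H.MP_694475_co.AD.Low

set_option autoImplicit false

namespace Pool.Agent.H.AD694

open Finset

/-- The radii `r` for which every function is at distance at most `r` from an affine one. -/
def Cov (n r : ℕ) : Prop := ∀ f : (Fin n → ZMod 2) → ZMod 2, ∃ (b0 : ZMod 2) (b : Fin n → ZMod 2),
    hammingDist f (fun x => b0 + ∑ i, b i * x i) ≤ r

lemma cov_half {n : ℕ} (hn : 1 ≤ n) : Cov n (2 ^ (n - 1)) := by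
  intro f
  apply (cov_iff f _).2
  refine ⟨0, ?_⟩
  have h : (2:ℤ) ^ n = 2 * 2 ^ (n - 1) := by
    rw [← pow_succ']; congr 1; omega
  push_cast
  rw [h, sub_self]
  exact abs_nonneg _

lemma cov_one : Cov 1 0 := by
  intro f
  apply (cov_iff f _).2
  obtain ⟨φ, hφ⟩ := exists_large (U := V 1) f
  obtain ⟨d, hd⟩ := S_even f φ
  refine ⟨φ, ?_⟩
  have h1 : Module.finrank (ZMod 2) (V 1) = 1 := by simp
  rw [h1, hd] at hφ
  rw [hd]
  norm_num at hφ ⊢
  by_contra hcon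
  rw [not_le, abs_lt] at hcon
  have : (2:ℤ) - 2 * d = 0 := by omega
  rw [this] at hφ
  norm_num at hφ

lemma cov_three : Cov 3 2 := by
  intro f
  apply (cov_iff f _).2
  obtain ⟨φ, hφ⟩ := exists_large (U := V 3) f
  obtain ⟨d, hd⟩ := S_even f φ
  refine ⟨φ, ?_⟩
  have h1 : Module.finrank (ZMod 2) (V 3) = 3 := by simp
  rw [h1, hd] at hφ
  rw [hd]
  norm_num at hφ ⊢
  by_contra hcon
  rw [not_le, abs_lt] at hcon
  have h2 : (8:ℤ) - 2 * d ≤ 2 := by omega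
  have h3 : -2 ≤ (8:ℤ) - 2 * d := by omega
  nlinarith

lemma cov_large {n : ℕ} (hn : Odd n) (hn5 : 5 ≤ n) (j : ℕ) (hj : (8 * j + 2) ^ 2 < 2 ^ n) :
    Cov n (2 ^ (n - 1) - (4 * j + 4)) := by
  intro f
  apply (cov_iff f _).2
  obtain ⟨a, ha⟩ := walsh_lower hn hn5 j hj (fun x => sgn (f x)) (fun x => sgn_eq _)
  obtain ⟨φ, hφ⟩ := exists_form a
  refine ⟨φ, ?_⟩
  have h : (2:ℤ) ^ n = 2 * 2 ^ (n - 1) := by
    rw [← pow_succ']; congr 1; omega
  have hS : S f φ = W (fun x => sgn (f x)) a := by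
    unfold S W
    apply Finset.sum_congr rfl
    intro x _
    rw [sgn_add, hφ]
    rfl
  rw [hS]
  refine le_trans ?_ ha
  have h2 : ((2 ^ (n - 1) - (4 * j + 4) : ℕ) : ℤ) ≥ 2 ^ (n - 1) - (4 * j + 4) := by
    have := Int.le_natCast_sub (2 ^ (n - 1)) (4 * j + 4)
    push_cast at this ⊢
    linarith
  rw [h]
  linarith

/-- The lower bound for the covering radius in odd dimension. -/
lemma cov_low (s r : ℕ) (h : Cov (2 * s + 1) r) : 2 ^ (2 * s) ≤ r + 2 ^ s := by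
  have hg : ∀ φ : V 1 →ₗ[ZMod 2] ZMod 2, |S (fun _ : V 1 => (0 : ZMod 2)) φ| ≤ 2 := by
    intro φ
    have h1 : |S (fun _ : V 1 => (0 : ZMod 2)) φ| ≤ ∑ x : V 1, |sgn (0 + φ x)| :=
      Finset.abs_sum_le_sum_abs _ _
    have h2 : ∀ x : V 1, |sgn (0 + φ x)| = 1 := by
      intro x
      rcases sgn_eq (0 + φ x) with h | h <;> rw [h] <;> norm_num
    simp_rw [h2] at h1
    simp only [Finset.sum_const, Finset.card_univ, nsmul_eq_mul, mul_one] at h1
    rw [vcard] at h1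
    simpa using h1
  obtain ⟨f, K, -, -, hf⟩ := main_low 1 2 _ hg s
  rw [show 2 * s + 1 = 1 + 2 * s by ring] at h
  obtain ⟨φ, hφ⟩ := (cov_iff f r).1 (h f)
  have h1 := hf φ
  have h2 : (2:ℤ) ^ (1 + 2 * s) = 2 * 2 ^ (2 * s) := by ring
  rw [h2] at hφ
  have h3 : (2:ℤ) ^ (2 * s) ≤ r + 2 ^ s := by linarith
  exact_mod_cast h3

end Pool.Agent.H.AD694
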