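import Mathlib

set_option autoImplicit false

namespace Pool.Agent.H.AD694

open Finset

/-- The vector space `F_2 ^ n`. -/
abbrev V (n : ℕ) := Fin n → ZMod 2

/-- The sign `(-1) ^ z` of `z : ZMod 2`. -/
def sgn (z : ZMod 2) : ℤ := if z = 0 then 1 else -1

lemma zmod2_cases (z : ZMod 2) : z = 0 ∨ z = 1 := by
  revert z; decide

lemma sgn_zero : sgn 0 = 1 := by simp [sgn]
lemma sgn_one : sgn 1 = -1 := by simp [sgn]

lemma sgn_add (z w : ZMod 2) : sgn (z + w) = sgn z * sgn w := by
  revert z w; decide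

lemma sgn_sq (z : ZMod 2) : sgn z * sgn z = 1 := by
  revert z; decide

lemma sgn_eq (z : ZMod 2) : sgn z = 1 ∨ sgn z = -1 := by
  revert z; decide

lemma two_zero (z : ZMod 2) : z + z = 0 := by
  revert z; decide

lemma sgn_intCast (k : ℤ) : (k % 2 = 0 ∧ sgn (k : ZMod 2) = 1) ∨ (k % 2 = 1 ∧ sgn (k : ZMod 2) = -1) := by
  rcases Int.emod_two_eq_zero_or_one k with h | h
  · left
    refine ⟨h, ?_⟩
    have : (k : ZMod 2) = 0 := by
      rw [ZMod.intCast_zmod_eq_zero_iff_dvd]; exact Int.dvd_of_emod_eq_zero h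
    rw [this, sgn_zero]
  · right
    refine ⟨h, ?_⟩
    have : (k : ZMod 2) = 1 := by
      have h2 : k = 2 * (k / 2) + 1 := by omega
      rw [h2]
      push_cast
      have : (2 : ZMod 2) = 0 := by decide
      rw [this]; ring
    rw [this, sgn_one]

/-- The dot product. -/
def dot {n : ℕ} (a x : V n) : ZMod 2 := ∑ i, a i * x i

lemma dot_comm {n : ℕ} (a x : V n) : dot a x = dot x a := by
  simp [dot, mul_comm]

lemma dot_add {n : ℕ} (a x y : V n) : dot a (x + y) = dot a x + dot a y := by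
  simp [dot, mul_add, Finset.sum_add_distrib]

lemma add_dot {n : ℕ} (a b x : V n) : dot (a + b) x = dot a x + dot b x := by
  simp [dot, add_mul, Finset.sum_add_distrib]

lemma dot_zero {n : ℕ} (a : V n) : dot a 0 = 0 := by simp [dot]
lemma zero_dot {n : ℕ} (a : V n) : dot 0 a = 0 := by simp [dot]

lemma vadd_self {n : ℕ} (a : V n) : a + a = 0 := by
  funext i; exact two_zero _

lemma exists_dot_ne {n : ℕ} (x : V n) (hx : x ≠ 0) : ∃ a : V n, dot a x = 1 := by
  obtain ⟨i, hi⟩ : ∃ i, x i ≠ 0 := by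
    by_contra h; exact hx (funext fun i => by_contra fun hi => h ⟨i, hi⟩)
  refine ⟨Pi.single i 1, ?_⟩
  simp only [dot]
  rw [Finset.sum_eq_single i]
  · simp only [Pi.single_eq_same, one_mul]
    rcases zmod2_cases (x i) with h | h
    · exact absurd h hi
    · exact h
  · intro j _ hj; simp [Pi.single_eq_of_ne hj]
  · simp

/-- The sum of the signs of a character. -/
lemma sum_sgn_dot {n : ℕ} (x : V n) : ∑ a : V n, sgn (dot a x) = if x = 0 then (2:ℤ)^n else 0 := by
  split_ifs with h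
  · subst h
    simp [dot_zero, sgn_zero]
  · obtain ⟨b, hb⟩ := exists_dot_ne x h
    have h1 : ∑ a : V n, sgn (dot a x) = ∑ a : V n, sgn (dot (a + b) x) :=
      (Equiv.sum_comp (Equiv.addRight b) (fun a => sgn (dot a x))).symm
    have h2 : ∑ a : V n, sgn (dot (a + b) x) = - ∑ a : V n, sgn (dot a x) := by
      rw [← Finset.sum_neg_distrib]
      apply Finset.sum_congr rfl
      intro a _
      rw [add_dot, sgn_add, hb, sgn_one]; ring
    linarith

/-- The Walsh transform. -/
def W {n : ℕ} (F : V n → ℤ) (a : V n) : ℤ := ∑ x, F x * sgn (dot a x)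

lemma W_corr {n : ℕ} (F : V n → ℤ) (hF : ∀ x, F x * F x = 1) (l : V n) :
    ∑ a, W F a * W F (a + l) = if l = 0 then (4:ℤ)^n else 0 := by
  have h1 : ∀ a, W F a * W F (a + l) =
      ∑ x, ∑ y, F x * F y * sgn (dot l y) * sgn (dot a (x + y)) := by
    intro a
    simp only [W]
    rw [Finset.sum_mul_sum]
    apply Finset.sum_congr rfl; intro x _
    apply Finset.sum_congr rfl; intro y _
    rw [add_dot, dot_add, sgn_add, sgn_add]; ring
  simp_rw [h1]
  rw [Finset.sum_comm]
  have h2 : ∀ x, ∑ a, ∑ y, F x * F y * sgn (dot l y) * sgn (dot a (x + y)) =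
      (2:ℤ)^n * sgn (dot l x) := by
    intro x
    rw [Finset.sum_comm]
    have h3 : ∀ y, ∑ a, F x * F y * sgn (dot l y) * sgn (dot a (x + y)) =
        F x * F y * sgn (dot l y) * (if x + y = 0 then (2:ℤ)^n else 0) := by
      intro y
      rw [← Finset.mul_sum, sum_sgn_dot]
    simp_rw [h3]
    rw [Finset.sum_eq_single x]
    · rw [vadd_self, if_pos rfl, hF x]; ring
    · intro y _ hy
      rw [if_neg]
      · ring
      · intro h
        apply hy
        have : y = x + (x + y) := by rw [← add_assoc, vadd_self, zero_add]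
        rw [this, h, add_zero]
    · simp
  simp_rw [h2]
  rw [← Finset.mul_sum]
  have h4 : ∑ x : V n, sgn (dot l x) = if l = 0 then (2:ℤ)^n else 0 := by
    have := sum_sgn_dot l
    simp_rw [dot_comm _ l] at this
    exact this
  rw [h4]
  split_ifs
  · rw [← mul_pow]; norm_num
  · simp

lemma W_inv {n : ℕ} (F : V n → ℤ) (x0 : V n) :
    ∑ a, W F a * sgn (dot a x0) = 2 ^ n * F x0 := by
  have h1 : ∀ a, W F a * sgn (dot a x0) = ∑ x, F x * sgn (dot a (x + x0)) := by
    intro a
    simp only [W]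
    rw [Finset.sum_mul]
    apply Finset.sum_congr rfl; intro x _
    rw [dot_add, sgn_add]; ring
  simp_rw [h1]
  rw [Finset.sum_comm]
  simp_rw [← Finset.mul_sum, sum_sgn_dot]
  rw [Finset.sum_eq_single x0]
  · rw [vadd_self, if_pos rfl]; ring
  · intro y _ hy
    rw [if_neg]
    · ring
    · intro h
      apply hy
      have : y = (y + x0) + x0 := by rw [add_assoc, vadd_self, add_zero]
      rw [this, h, zero_add]
  · simp

/-- For three vectors in dimension at least four there is a non-zero orthogonal vector. -/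
lemma exists_orth {n : ℕ} (hn : 4 ≤ n) (h1 h2 h3 : V n) :
    ∃ z : V n, z ≠ 0 ∧ dot h1 z = 0 ∧ dot h2 z = 0 ∧ dot h3 z = 0 := by
  let f : V n →ₗ[ZMod 2] (Fin 3 → ZMod 2) :=
    { toFun := fun z => ![dot h1 z, dot h2 z, dot h3 z]
      map_add' := by
        intro x y
        funext i
        fin_cases i <;> simp [dot_add]
      map_smul' := by
        intro c x
        funext i
        fin_cases i <;> simp [dot, Finset.mul_sum, mul_left_comm] }
  have hk : LinearMap.ker f ≠ ⊥ := by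
    apply LinearMap.ker_ne_bot_of_finrank_lt
    simp
    omega
  obtain ⟨z, hz, hz0⟩ := (Submodule.ne_bot_iff _).1 hk
  have hz' : f z = 0 := hz
  refine ⟨z, hz0, ?_, ?_, ?_⟩
  · simpa [f] using congrFun hz' 0
  · simpa [f] using congrFun hz' 1
  · simpa [f] using congrFun hz' 2

lemma even_sum_orth {n : ℕ} (hn : 4 ≤ n) (F : V n → ℤ) (hF : ∀ x, F x = 1 ∨ F x = -1)
    (a h1 h2 h3 : V n) :
    (2:ℤ) ∣ ∑ x, (if dot h1 x = 0 ∧ dot h2 x = 0 ∧ dot h3 x = 0 then F x * sgn (dot a x) else 0) := by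
  obtain ⟨z, hz0, hz1, hz2, hz3⟩ := exists_orth hn h1 h2 h3
  have hsuff : ((∑ x : V n, (if dot h1 x = 0 ∧ dot h2 x = 0 ∧ dot h3 x = 0 then F x * sgn (dot a x) else 0) : ℤ) : ZMod 2) = 0 → (2:ℤ) ∣ ∑ x, (if dot h1 x = 0 ∧ dot h2 x = 0 ∧ dot h3 x = 0 then F x * sgn (dot a x) else 0) := by
    intro h
    exact_mod_cast (ZMod.intCast_zmod_eq_zero_iff_dvd _ 2).1 h
  apply hsuff
  push_cast
  have hkey : ∀ x : V n, ((if dot h1 x = 0 ∧ dot h2 x = 0 ∧ dot h3 x = 0 then F x * sgn (dot a x) else 0 : ℤ) : ZMod 2)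
      = if dot h1 x = 0 ∧ dot h2 x = 0 ∧ dot h3 x = 0 then 1 else 0 := by
    intro x
    split_ifs
    · rcases hF x with h | h <;> rcases sgn_eq (dot a x) with h' | h' <;> rw [h, h'] <;> decide
    · simp
  rw [show (∑ x, ((if dot h1 x = 0 ∧ dot h2 x = 0 ∧ dot h3 x = 0 then (F x : ZMod 2) * (sgn (dot a x) : ZMod 2) else 0)))
    = ∑ x, (if dot h1 x = 0 ∧ dot h2 x = 0 ∧ dot h3 x = 0 then (1 : ZMod 2) else 0) from by
      apply Finset.sum_congr rfl
      intro x _
      have := hkey x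
      push_cast at this
      exact this]
  apply Finset.sum_involution (fun x _ => x + z)
  · intro x _
    rw [dot_add, dot_add, dot_add, hz1, hz2, hz3]
    simp only [add_zero]
    exact two_zero _
  · intro x _ _ h
    apply hz0
    have : x + z = x + 0 := by rw [h, add_zero]
    exact add_left_cancel this
  · intro x _; simp
  · intro x _
    rw [add_assoc, vadd_self, add_zero]

/-- Divisibility of the sum of the Walsh values over a parallelepiped of dimension three. -/
lemma par3 {n : ℕ} (hn : 4 ≤ n) (F : V n → ℤ) (hF : ∀ x, F x = 1 ∨ F x = -1)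
    (a h1 h2 h3 : V n) :
    (16:ℤ) ∣ W F a + W F (a + h1) + W F (a + h2) + W F (a + h3) + W F (a + h1 + h2)
      + W F (a + h1 + h3) + W F (a + h2 + h3) + W F (a + h1 + h2 + h3) := by
  have key : W F a + W F (a + h1) + W F (a + h2) + W F (a + h3) + W F (a + h1 + h2)
      + W F (a + h1 + h3) + W F (a + h2 + h3) + W F (a + h1 + h2 + h3) =
      8 * ∑ x, (if dot h1 x = 0 ∧ dot h2 x = 0 ∧ dot h3 x = 0 then F x * sgn (dot a x) else 0) := by
    simp only [W]
    rw [Finset.mul_sum, ← Finset.sum_add_distrib, ← Finset.sum_add_distrib,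
      ← Finset.sum_add_distrib, ← Finset.sum_add_distrib, ← Finset.sum_add_distrib,
      ← Finset.sum_add_distrib, ← Finset.sum_add_distrib]
    apply Finset.sum_congr rfl
    intro x _
    simp only [add_dot, sgn_add]
    rcases zmod2_cases (dot h1 x) with e1 | e1 <;> rcases zmod2_cases (dot h2 x) with e2 | e2 <;>
      rcases zmod2_cases (dot h3 x) with e3 | e3 <;> simp [e1, e2, e3, sgn_zero, sgn_one] <;> ring
  rw [key]
  obtain ⟨k, hk⟩ := even_sum_orth hn F hF a h1 h2 h3
  rw [hk]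
  exact ⟨k, by ring⟩

lemma par2 {n : ℕ} (hn : 4 ≤ n) (F : V n → ℤ) (hF : ∀ x, F x = 1 ∨ F x = -1)
    (a h1 h2 : V n) :
    (8:ℤ) ∣ W F a + W F (a + h1) + W F (a + h2) + W F (a + h1 + h2) := by
  have h := par3 hn F hF a h1 h2 0
  simp only [add_zero] at h
  omega

lemma par1 {n : ℕ} (hn : 4 ≤ n) (F : V n → ℤ) (hF : ∀ x, F x = 1 ∨ F x = -1)
    (a h1 : V n) :
    (4:ℤ) ∣ W F a + W F (a + h1) := by
  have h := par2 hn F hF a h1 0
  simp only [add_zero] at h
  omega

lemma par0 {n : ℕ} (hn : 4 ≤ n) (F : V n → ℤ) (hF : ∀ x, F x = 1 ∨ F x = -1) (a : V n) :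
    (2:ℤ) ∣ W F a := by
  have h := par1 hn F hF a 0
  simp only [add_zero] at h
  omega

end Pool.Agent.H.AD694
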